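import Mathlib
import Pool.Agent.X69.DPG
import Pool.Agent.X69.DPGLower

/-! The forcing time of complete graphs from triangle-free graphs in the degree-preserving
Builder-Chooser game grows like a tower of height `k + O(1)`. -/

namespace Pool.Agent.Results.MP_f79b02_co.TowerGrowth

open Pool.Agent.X69.DPG

/-- For every `k ≥ 4`: `lower (k - 3) < ρ(k) ≤ upper (k - 2)`, where `lower` is
`0, 2, 5, 12, 139, ...` (increments `2, 3, 7, 127, ...`, each `2` to the power of the one before,
minus one) and `upper` is `0, 1, 3, 11, 2059, ...` (`upper (i + 1) = upper i + 2 ^ upper i`); both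
are of tower type, `twr (k - 4) < lower (k - 3)` and `upper (k - 2) < twr (k - 2)`. -/
theorem result (k : ℕ) (hk : 4 ≤ k) :
    (lower (k - 3) : ℕ∞) < rho k ∧ rho k ≤ (upper (k - 2) : ℕ∞) ∧
      twr (k - 4) < lower (k - 3) ∧ upper (k - 2) < twr (k - 2) :=
  ⟨lower_lt_rho k hk, rho_le k (by omega), twr_lt_lower k hk, upper_lt_twr (k - 2)⟩

end Pool.Agent.Results.MP_f79b02_co.TowerGrowth
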